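import Pool.Agent.N356.SP.DefsK

/-! # Project LK, part GK6a (helper391): moments as sums over words -/

set_option autoImplicit false
set_option linter.unusedVariables false
set_option linter.unusedSectionVars false

namespace Pool.Agent.N391.LK

open Finset Pool.Agent.H384R3.SPk Pool.Agent.N356.SP

/-- splitting off the first letter -/
theorem sum_cons {Γ M : Type*} [AddCommMonoid M] (C : Finset Γ) (n : ℕ)
    (G : (Fin (n + 1) → Γ) → M) :
    ∑ x ∈ Fintype.piFinset (fun _ : Fin (n + 1) => C), G x =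
      ∑ c ∈ C, ∑ x ∈ Fintype.piFinset (fun _ : Fin n => C),
        G (Fin.cons (α := fun _ => Γ) c x) := by
  rw [← Finset.sum_product']
  refine Finset.sum_nbij' (fun x => (x 0, fun i => x i.succ))
    (fun p => Fin.cons (α := fun _ => Γ) p.1 p.2) ?_ ?_ ?_ ?_ ?_
  · intro x hx
    rw [Fintype.mem_piFinset] at hx
    rw [Finset.mem_product, Fintype.mem_piFinset]
    exact ⟨hx 0, fun i => hx i.succ⟩
  · intro p hp
    rw [Finset.mem_product, Fintype.mem_piFinset] at hp
    rw [Fintype.mem_piFinset]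
    intro i
    refine Fin.cases ?_ (fun j => ?_) i
    · exact hp.1
    · exact hp.2 j
  · intro x _
    funext i
    refine Fin.cases ?_ (fun j => ?_) i <;> rfl
  · intro p _
    rfl
  · intro x _
    congr 1
    funext i
    refine Fin.cases ?_ (fun j => ?_) i <;> rfl

theorem prod_cons {Γ R : Type*} [CommRing R] (φ : Γ → R) (n : ℕ) (c : Γ) (x : Fin n → Γ) :
    ∏ i, φ (Fin.cons (α := fun _ => Γ) c x i) = φ c * ∏ i, φ (x i) := by
  rw [Fin.prod_univ_succ]
  rfl

section Abs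

variable {Γ R : Type*} [AddCommGroup Γ] [CommRing R] [Algebra ℝ R] {K : Cone Γ R}
  {L : R →ₗ[ℝ] ℝ} {C : Finset Γ} {θ : Γ → Γ → ℝ} {φ : Γ → R}

theorem pow_words (C : Finset Γ) (φ : Γ → R) (n : ℕ) : fA C φ ^ n =
    ∑ x ∈ Fintype.piFinset (fun _ : Fin n => C), ∏ i, φ (x i) := by
  have h := Finset.prod_univ_sum (fun _ : Fin n => C) (fun _ c => φ c)
  rw [← h, Finset.prod_const, Finset.card_univ, Fintype.card_fin]
  rfl

/-- GK6a: moments as sums over words -/
theorem words_pow (n : ℕ) : L (fA C φ ^ n) =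
    ∑ x ∈ Fintype.piFinset (fun _ : Fin n => C), L (∏ i, φ (x i)) := by
  rw [pow_words, map_sum]

open Classical in
/-- the sum over the words with two further letters -/
theorem two_words (n : ℕ) (P : Γ → Γ → Prop) :
    (∑ x ∈ Fintype.piFinset (fun _ : Fin (n + 2) => C),
      if P (x 0) (x 1) then L (∏ i, φ (x i)) else 0) =
    L ((∑ c ∈ C, ∑ d ∈ C, if P c d then φ c * φ d else 0) * fA C φ ^ n) := by
  rw [sum_cons C (n + 1), Finset.sum_mul, map_sum]
  refine Finset.sum_congr rfl fun c _ => ?_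
  rw [sum_cons C n, Finset.sum_mul, map_sum]
  refine Finset.sum_congr rfl fun d _ => ?_
  by_cases h : P c d
  · rw [if_pos h, pow_words, Finset.mul_sum, map_sum]
    refine Finset.sum_congr rfl fun x _ => ?_
    rw [prod_cons, prod_cons]
    have h1 : P ((Fin.cons c (Fin.cons d x : Fin (n + 1) → Γ) : Fin (n + 2) → Γ) 0)
        ((Fin.cons c (Fin.cons d x : Fin (n + 1) → Γ) : Fin (n + 2) → Γ) 1) := h
    rw [if_pos h1, mul_assoc]
  · rw [if_neg h, zero_mul, map_zero]
    refine Finset.sum_eq_zero fun x _ => ?_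
    have h1 : ¬ P ((Fin.cons c (Fin.cons d x : Fin (n + 1) → Γ) : Fin (n + 2) → Γ) 0)
        ((Fin.cons c (Fin.cons d x : Fin (n + 1) → Γ) : Fin (n + 2) → Γ) 1) := h
    rw [if_neg h1]

/-- the sum over the words with four further letters -/
theorem four_words (n : ℕ) (W : Γ → Γ → Γ → Γ → ℝ) :
    (∑ x ∈ Fintype.piFinset (fun _ : Fin (n + 4) => C),
      W (x 0) (x 1) (x 2) (x 3) * L (∏ i, φ (x i))) =
    L ((∑ a ∈ C, ∑ b ∈ C, ∑ c ∈ C, ∑ d ∈ C, W a b c d • (φ a * φ b * φ c * φ d)) *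
      fA C φ ^ n) := by
  rw [sum_cons C (n + 3), Finset.sum_mul, map_sum]
  refine Finset.sum_congr rfl fun a _ => ?_
  rw [sum_cons C (n + 2), Finset.sum_mul, map_sum]
  refine Finset.sum_congr rfl fun b _ => ?_
  rw [sum_cons C (n + 1), Finset.sum_mul, map_sum]
  refine Finset.sum_congr rfl fun c _ => ?_
  rw [sum_cons C n, Finset.sum_mul, map_sum]
  refine Finset.sum_congr rfl fun d _ => ?_
  rw [pow_words, Finset.mul_sum, map_sum]
  refine Finset.sum_congr rfl fun x _ => ?_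
  rw [prod_cons, prod_cons, prod_cons, prod_cons, smul_mul_assoc, map_smul, smul_eq_mul]
  simp only [mul_assoc]
  rfl

open Classical in
theorem words_mu (hneg : ∀ s ∈ C, -s ∈ C) (n : ℕ) : L (muA C φ * fA C φ ^ n) =
    ∑ x ∈ Fintype.piFinset (fun _ : Fin (n + 2) => C),
      if x 0 = -x 1 then L (∏ i, φ (x i)) else 0 := by
  have h := two_words (L := L) (C := C) (φ := φ) n (fun c d => c = -d)
  rw [h]
  congr 2
  unfold muA
  refine Finset.sum_congr rfl fun c hc => ?_
  rw [Finset.sum_eq_single (-c)]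
  · rw [if_pos (by rw [neg_neg])]
  · intro d _ hd
    rw [if_neg]
    intro h'
    exact hd (by rw [h', neg_neg])
  · intro h'
    exact absurd (hneg c hc) h'

/-- `μ` as a double sum -/
theorem muA_eq (hneg : ∀ s ∈ C, -s ∈ C) [DecidableEq Γ] :
    muA C φ = ∑ c ∈ C, ∑ d ∈ C, if c = -d then φ c * φ d else 0 := by
  unfold muA
  refine Finset.sum_congr rfl fun c hc => ?_
  rw [Finset.sum_eq_single (-c)]
  · rw [if_pos (by rw [neg_neg])]
  · intro d _ hd
    rw [if_neg]
    intro h'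
    exact hd (by rw [h', neg_neg])
  · intro h'
    exact absurd (hneg c hc) h'

open Classical in
theorem words_mu2 (hneg : ∀ s ∈ C, -s ∈ C) (n : ℕ) : L (muA C φ ^ 2 * fA C φ ^ n) =
    ∑ x ∈ Fintype.piFinset (fun _ : Fin (n + 4) => C),
      if x 0 = -x 1 ∧ x 2 = -x 3 then L (∏ i, φ (x i)) else 0 := by
  have h := four_words (L := L) (C := C) (φ := φ) n
    (fun a b c d => if a = -b ∧ c = -d then 1 else 0)
  have e : (∑ x ∈ Fintype.piFinset (fun _ : Fin (n + 4) => C),
      if x 0 = -x 1 ∧ x 2 = -x 3 then L (∏ i, φ (x i)) else 0) =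
      ∑ x ∈ Fintype.piFinset (fun _ : Fin (n + 4) => C),
      (if x 0 = -x 1 ∧ x 2 = -x 3 then (1 : ℝ) else 0) * L (∏ i, φ (x i)) := by
    refine Finset.sum_congr rfl fun x _ => ?_
    split_ifs <;> simp
  rw [e, h]
  congr 2
  rw [sq, muA_eq hneg, Finset.sum_mul]
  refine Finset.sum_congr rfl fun a _ => ?_
  rw [Finset.sum_mul]
  refine Finset.sum_congr rfl fun b _ => ?_
  rw [Finset.mul_sum]
  refine Finset.sum_congr rfl fun c _ => ?_
  rw [Finset.mul_sum]
  refine Finset.sum_congr rfl fun d _ => ?_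
  by_cases h1 : a = -b <;> by_cases h2 : c = -d
  · rw [if_pos h1, if_pos h2, if_pos ⟨h1, h2⟩, one_smul]
    ring
  · have h3 : ¬ (a = -b ∧ c = -d) := fun h => h2 h.2
    rw [if_neg h2, if_neg h3, mul_zero, zero_smul]
  · have h3 : ¬ (a = -b ∧ c = -d) := fun h => h1 h.1
    rw [if_neg h1, if_neg h3, zero_mul, zero_smul]
  · have h3 : ¬ (a = -b ∧ c = -d) := fun h => h1 h.1
    rw [if_neg h1, if_neg h3, zero_mul, zero_smul]

open Classical in
theorem wA_eq : wA C θ φ = ∑ s ∈ C, ∑ t ∈ C, ∑ u ∈ C, ∑ v ∈ C,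
    (if s + t + u + v = 0 then θ s t * θ u v else 0) • (φ s * φ t * φ u * φ v) := by
  unfold wA VA
  have h1 : ∀ r ∈ DD C, (∑ s ∈ C, ∑ t ∈ C, if s + t = r then θ s t • (φ s * φ t) else 0) *
      (∑ s ∈ C, ∑ t ∈ C, if s + t = -r then θ s t • (φ s * φ t) else 0) =
      ∑ s ∈ C, ∑ t ∈ C, if s + t = r then ∑ u ∈ C, ∑ v ∈ C,
        (if s + t + u + v = 0 then θ s t * θ u v else 0) • (φ s * φ t * φ u * φ v) else 0 := by
    intro r _
    rw [Finset.sum_mul]
    refine Finset.sum_congr rfl fun s _ => ?_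
    rw [Finset.sum_mul]
    refine Finset.sum_congr rfl fun t _ => ?_
    by_cases hst : s + t = r
    · rw [if_pos hst, if_pos hst, Finset.mul_sum]
      refine Finset.sum_congr rfl fun u _ => ?_
      rw [Finset.mul_sum]
      refine Finset.sum_congr rfl fun v _ => ?_
      by_cases huv : u + v = -r
      · have h2 : s + t + u + v = 0 := by
          rw [add_assoc (s + t), huv, hst, add_neg_cancel]
        rw [if_pos huv, if_pos h2, smul_mul_smul_comm]
        congr 1
        ring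
      · have h2 : ¬ s + t + u + v = 0 := by
          intro h
          apply huv
          rw [add_assoc (s + t), hst] at h
          exact eq_neg_of_add_eq_zero_right h
        rw [if_neg huv, if_neg h2, mul_zero, zero_smul]
    · rw [if_neg hst, if_neg hst, zero_mul]
  rw [Finset.sum_congr rfl h1, Finset.sum_comm]
  refine Finset.sum_congr rfl fun s hs => ?_
  rw [Finset.sum_comm]
  refine Finset.sum_congr rfl fun t ht => ?_
  rw [Finset.sum_ite_eq, if_pos]
  unfold DD
  exact Finset.mem_image.2 ⟨(s, t), Finset.mem_product.2 ⟨hs, ht⟩, rfl⟩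

open Classical in
theorem words_w (hanti : ∀ s, θ s (-s) = 0) (n : ℕ) : L (wA C θ φ * fA C φ ^ n) =
    ∑ x ∈ Fintype.piFinset (fun _ : Fin (n + 4) => C),
      if x 0 + x 1 + x 2 + x 3 = 0 then θ (x 0) (x 1) * θ (x 2) (x 3) * L (∏ i, φ (x i)) else 0 := by
  have h := four_words (L := L) (C := C) (φ := φ) n
    (fun a b c d => if a + b + c + d = 0 then θ a b * θ c d else 0)
  have e : (∑ x ∈ Fintype.piFinset (fun _ : Fin (n + 4) => C),
      if x 0 + x 1 + x 2 + x 3 = 0 then θ (x 0) (x 1) * θ (x 2) (x 3) * L (∏ i, φ (x i)) else 0) =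
      ∑ x ∈ Fintype.piFinset (fun _ : Fin (n + 4) => C),
      (if x 0 + x 1 + x 2 + x 3 = 0 then θ (x 0) (x 1) * θ (x 2) (x 3) else 0) *
        L (∏ i, φ (x i)) := by
    refine Finset.sum_congr rfl fun x _ => ?_
    split_ifs <;> simp
  rw [e, h, wA_eq]

theorem word_mem (hφ : ∀ c, φ c ∈ K.P c) : ∀ {n : ℕ} (x : Fin n → Γ),
    ∏ i, φ (x i) ∈ K.P (∑ i, x i) := by
  intro n
  induction n with
  | zero =>
    intro x
    rw [Fin.prod_univ_zero, Fin.sum_univ_zero]
    exact K.one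
  | succ n ih =>
    intro x
    rw [Fin.prod_univ_succ, Fin.sum_univ_succ]
    exact K.mul _ _ _ _ (hφ _) (ih _)

theorem word_nonneg (hL : IsFun K L) (hφ : ∀ c, φ c ∈ K.P c) {n : ℕ} (x : Fin n → Γ) :
    0 ≤ L (∏ i, φ (x i)) ∧ (∑ i, x i ≠ 0 → L (∏ i, φ (x i)) = 0) := by
  have h := word_mem hφ x
  have h2 : ∑ i, x i ≠ 0 → L (∏ i, φ (x i)) = 0 := fun h0 => hL.z _ h0 _ h
  refine ⟨?_, h2⟩
  by_cases h0 : ∑ i, x i = 0
  · rw [h0] at h
    exact hL.nn _ h
  · rw [h2 h0]

end Abs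

end Pool.Agent.N391.LK
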